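import Pool.Agent.Helper81.OT.H2P8
import Pool.Agent.Helper81.OT.S99
import Pool.Agent.Helper84.ST.F

/-!
One tail: all arcs with an order at most `9` (star shaped quarters).
-/

set_option autoImplicit false
noncomputable section
namespace Pool.Agent.Helper81.OT

open Pool.Agent.Helper6.MONO (xA)
open Pool.Agent.Helper84.ST (QXS qxS_of)

/-- the arcs `(a, b, r)` with `a` or `b` at most `9` -/
theorem h2s_9 : ∀ a b : ℕ, 3 ≤ a → a ≤ 9 → 3 ≤ b → b ≤ 9 → (a ≤ 9 ∨ b ≤ 9) →
    ∀ r, 10 ≤ r → QXS a b r (xA a b r) := by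
  intro a b ha ha9 hb hb9 h
  by_cases h3 : a ≤ 8 ∨ b ≤ 8
  · exact h2s_8 a b ha ha9 hb hb9 h3
  · rcases h with h | h
    · obtain rfl : a = 9 := by omega
      have hb4 : 9 ≤ b := by omega
      interval_cases b
      · exact qs_9_9
    · obtain rfl : b = 9 := by omega
      have ha4 : 9 ≤ a := by omega
      interval_cases a
      · exact qs_9_9

end Pool.Agent.Helper81.OT
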