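import Pool.Agent.CXD.M_3_T_0
import Pool.Agent.CXD.M_3_T_1
import Pool.Agent.Helper6.CXT.CL4
import Pool.Agent.Helper81.MIT.Glu
import Pool.Agent.Helper81.TK.GP1

/-!
One tail, first order `3`: the quarters on the exact line.
-/

set_option autoImplicit false
set_option exponentiation.threshold 4000
noncomputable section
namespace Pool.Agent.Helper81.OT

open Pool.Agent.Helper81.MIT
open Pool.Agent.Helper6.MONO (xA)
open Pool.Agent.Helper6.MONO.QTR (QX)
open Pool.Agent.Helper6.CXT (far_one)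

theorem n34_near1 : Tc xA (Lb.ex 3) (Lb.ex 4) (Lb.tl 535397221531648 548835622912000) 0 251890078640152 :=
  fun _ _ _ ha hb hc => Pool.Agent.CXD.t34T_near1 ha hb hc
theorem nr34_0 : Tc xA (Lb.ex 3) (Lb.ex 4) (Lb.tl 535397221531648 548835622912000) 0 251890078640152 :=
  (n34_near1.sub (by norm_num) (by norm_num) : Tc xA (Lb.ex 3) (Lb.ex 4) (Lb.tl 535397221531648 548835622912000) 0 251890078640152)
theorem c34_0 : Tc xA (Lb.ex 3) (Lb.ex 4) (Lb.tl 535397221531648 548835622912000) 0 2251799813685248 :=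
  (nr34_0.box (Lb.le_refl _) (Lb.le_refl _) (Lb.le_tl (by norm_num) (by norm_num))).join (Pool.Agent.Helper81.TK.E_3_4_T_mid1.T.box (Lb.le_refl _) (Lb.le_refl _) (Lb.le_tl (by norm_num) (by norm_num))) (by norm_num) (by norm_num)
theorem n34_near2 : Tc xA (Lb.ex 3) (Lb.ex 4) (Lb.tl 550648146034688 562949953421312) 0 106854317962704 :=
  fun _ _ _ ha hb hc => Pool.Agent.CXD.t34T_near2 ha hb hc
theorem nr34_1 : Tc xA (Lb.ex 3) (Lb.ex 4) (Lb.tl 550648146034688 562949953421312) 0 106854317962704 :=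
  (n34_near2.sub (by norm_num) (by norm_num) : Tc xA (Lb.ex 3) (Lb.ex 4) (Lb.tl 550648146034688 562949953421312) 0 106854317962704)
theorem c34_1 : Tc xA (Lb.ex 3) (Lb.ex 4) (Lb.tl 550648146034688 562949953421312) 0 2251799813685248 :=
  (nr34_1.box (Lb.le_refl _) (Lb.le_refl _) (Lb.le_tl (by norm_num) (by norm_num))).join (Pool.Agent.Helper81.TK.E_3_4_T_mid2.T.box (Lb.le_refl _) (Lb.le_refl _) (Lb.le_tl (by norm_num) (by norm_num))) (by norm_num) (by norm_num)
theorem c34 : Tc xA (Lb.ex 3) (Lb.ex 4) (Lb.tl 535397221531648 562949953421312) 0 2251799813685248 :=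
  ((c34_0.sub (by norm_num) (by norm_num) : Tc xA (Lb.ex 3) (Lb.ex 4) (Lb.tl 535397221531648 548835622912000) 0 2251799813685248).join3
    (c34_1.sub (by norm_num) (by norm_num) : Tc xA (Lb.ex 3) (Lb.ex 4) (Lb.tl 550648146034688 562949953421312) 0 2251799813685248) (gapN (N := 14) (by norm_num) (by norm_num) (by norm_num [kbx, Pool.Agent.Helper6.MONO.kb]) (by norm_num [kbx, Pool.Agent.Helper6.MONO.kb])))
/-- the quarter `(3, 4, r)` on the exact line -/
theorem qx_3_4 : ∀ r, 10 ≤ r → QX 3 4 r (xA 3 4 r) :=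
  qx_of_T (by norm_num) (by norm_num) (by norm_num) (by norm_num) c34 le_rfl (by norm_num)
    (by norm_num) (far_one (by norm_num) (by norm_num) (by norm_num) (by norm_num))


end Pool.Agent.Helper81.OT
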