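import Pool.Agent.Helper81.OT.Q33
import Pool.Agent.Helper81.OT.Q34
import Pool.Agent.Helper81.OT.Q35
import Pool.Agent.Helper81.OT.Q36
import Pool.Agent.Helper81.OT.Q37
import Pool.Agent.Helper81.OT.Q38
import Pool.Agent.Helper81.OT.Q39
import Pool.Agent.Helper81.OT.Q43
import Pool.Agent.Helper81.OT.Q53
import Pool.Agent.Helper81.OT.Q63
import Pool.Agent.Helper81.OT.Q73
import Pool.Agent.Helper81.OT.Q83
import Pool.Agent.Helper81.OT.Q93

/-!
One tail: all arcs with an order `3`.
-/

set_option autoImplicit false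
noncomputable section
namespace Pool.Agent.Helper81.OT

open Pool.Agent.Helper6.MONO (xA)
open Pool.Agent.Helper6.MONO.QTR (QX)

/-- the arcs `(a, b, r)` and `(b, a, r)` with `a = 3` -/
theorem h2_3 : ∀ a b : ℕ, 3 ≤ a → a ≤ 9 → 3 ≤ b → b ≤ 9 → (a ≤ 3 ∨ b ≤ 3) →
    ∀ r, 10 ≤ r → QX a b r (xA a b r) := by
  intro a b ha ha9 hb hb9 h
  rcases h with h | h
  · obtain rfl : a = 3 := by omega
    interval_cases b
    · exact qx_3_3
    · exact qx_3_4
    · exact qx_3_5
    · exact qx_3_6
    · exact qx_3_7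
    · exact qx_3_8
    · exact qx_3_9
  · obtain rfl : b = 3 := by omega
    interval_cases a
    · exact qx_3_3
    · exact qx_4_3
    · exact qx_5_3
    · exact qx_6_3
    · exact qx_7_3
    · exact qx_8_3
    · exact qx_9_3

end Pool.Agent.Helper81.OT
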