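import Pool.Agent.CXD.M_4_T_0
import Pool.Agent.CXD.M_4_T_1
import Pool.Agent.Helper6.CXT.CL4
import Pool.Agent.Helper81.MIT.Glu
import Pool.Agent.Helper81.TK.GM1

/-!
One tail, first order `4`: the quarters on the exact line.
-/

set_option autoImplicit false
set_option exponentiation.threshold 4000
noncomputable section
namespace Pool.Agent.Helper81.OT

open Pool.Agent.Helper81.MIT
open Pool.Agent.Helper6.MONO (xA)
open Pool.Agent.Helper6.MONO.QTR (QX)
open Pool.Agent.Helper6.CXT (far_one)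

theorem n44_near : Tc xA (Lb.ex 4) (Lb.ex 4) (Lb.tl 535397221269504 562949953421312) 0 90071992547408 :=
  fun _ _ _ ha hb hc => Pool.Agent.CXD.t44T_near ha hb hc
theorem nr44_0 : Tc xA (Lb.ex 4) (Lb.ex 4) (Lb.tl 535397221269504 562949953421312) 0 90071992547408 :=
  (n44_near.sub (by norm_num) (by norm_num) : Tc xA (Lb.ex 4) (Lb.ex 4) (Lb.tl 535397221269504 562949953421312) 0 90071992547408)
theorem c44_0 : Tc xA (Lb.ex 4) (Lb.ex 4) (Lb.tl 535397221269504 562949953421312) 0 2251799813685248 :=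
  (nr44_0.box (Lb.le_refl _) (Lb.le_refl _) (Lb.le_tl (by norm_num) (by norm_num))).join (Pool.Agent.Helper81.TK.E_4_4_T_mid.T.box (Lb.le_refl _) (Lb.le_refl _) (Lb.le_tl (by norm_num) (by norm_num))) (by norm_num) (by norm_num)
theorem c44 : Tc xA (Lb.ex 4) (Lb.ex 4) (Lb.tl 535397221269504 562949953421312) 0 2251799813685248 :=
  (c44_0.sub (by norm_num) (by norm_num) : Tc xA (Lb.ex 4) (Lb.ex 4) (Lb.tl 535397221269504 562949953421312) 0 2251799813685248)
/-- the quarter `(4, 4, r)` on the exact line -/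
theorem qx_4_4 : ∀ r, 10 ≤ r → QX 4 4 r (xA 4 4 r) :=
  qx_of_T (by norm_num) (by norm_num) (by norm_num) (by norm_num) c44 le_rfl (by norm_num)
    (by norm_num) (far_one (by norm_num) (by norm_num) (by norm_num) (by norm_num))

theorem n45_near : Tc xA (Lb.ex 4) (Lb.ex 5) (Lb.tl 535397221269504 562949953421312) 0 87401774707844 :=
  fun _ _ _ ha hb hc => Pool.Agent.CXD.t45T_near ha hb hc
theorem nr45_0 : Tc xA (Lb.ex 4) (Lb.ex 5) (Lb.tl 535397221269504 562949953421312) 0 87401774707844 :=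
  (n45_near.sub (by norm_num) (by norm_num) : Tc xA (Lb.ex 4) (Lb.ex 5) (Lb.tl 535397221269504 562949953421312) 0 87401774707844)
theorem c45_0 : Tc xA (Lb.ex 4) (Lb.ex 5) (Lb.tl 535397221269504 562949953421312) 0 2251799813685248 :=
  (nr45_0.box (Lb.le_refl _) (Lb.le_refl _) (Lb.le_tl (by norm_num) (by norm_num))).join (Pool.Agent.Helper81.TK.E_4_5_T_mid.T.box (Lb.le_refl _) (Lb.le_refl _) (Lb.le_tl (by norm_num) (by norm_num))) (by norm_num) (by norm_num)
theorem c45 : Tc xA (Lb.ex 4) (Lb.ex 5) (Lb.tl 535397221269504 562949953421312) 0 2251799813685248 :=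
  (c45_0.sub (by norm_num) (by norm_num) : Tc xA (Lb.ex 4) (Lb.ex 5) (Lb.tl 535397221269504 562949953421312) 0 2251799813685248)
/-- the quarter `(4, 5, r)` on the exact line -/
theorem qx_4_5 : ∀ r, 10 ≤ r → QX 4 5 r (xA 4 5 r) :=
  qx_of_T (by norm_num) (by norm_num) (by norm_num) (by norm_num) c45 le_rfl (by norm_num)
    (by norm_num) (far_one (by norm_num) (by norm_num) (by norm_num) (by norm_num))

theorem n46_near : Tc xA (Lb.ex 4) (Lb.ex 6) (Lb.tl 535397221269504 562949953421312) 0 80952203301984 :=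
  fun _ _ _ ha hb hc => Pool.Agent.CXD.t46T_near ha hb hc
theorem nr46_0 : Tc xA (Lb.ex 4) (Lb.ex 6) (Lb.tl 535397221269504 562949953421312) 0 80952203301984 :=
  (n46_near.sub (by norm_num) (by norm_num) : Tc xA (Lb.ex 4) (Lb.ex 6) (Lb.tl 535397221269504 562949953421312) 0 80952203301984)
theorem c46_0 : Tc xA (Lb.ex 4) (Lb.ex 6) (Lb.tl 535397221269504 562949953421312) 0 2251799813685248 :=
  (nr46_0.box (Lb.le_refl _) (Lb.le_refl _) (Lb.le_tl (by norm_num) (by norm_num))).join (Pool.Agent.Helper81.TK.E_4_6_T_mid.T.box (Lb.le_refl _) (Lb.le_refl _) (Lb.le_tl (by norm_num) (by norm_num))) (by norm_num) (by norm_num)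
theorem c46 : Tc xA (Lb.ex 4) (Lb.ex 6) (Lb.tl 535397221269504 562949953421312) 0 2251799813685248 :=
  (c46_0.sub (by norm_num) (by norm_num) : Tc xA (Lb.ex 4) (Lb.ex 6) (Lb.tl 535397221269504 562949953421312) 0 2251799813685248)
/-- the quarter `(4, 6, r)` on the exact line -/
theorem qx_4_6 : ∀ r, 10 ≤ r → QX 4 6 r (xA 4 6 r) :=
  qx_of_T (by norm_num) (by norm_num) (by norm_num) (by norm_num) c46 le_rfl (by norm_num)
    (by norm_num) (far_one (by norm_num) (by norm_num) (by norm_num) (by norm_num))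

theorem n47_neara : Tc xA (Lb.ex 4) (Lb.ex 7) (Lb.tl 535397221269504 547468829786112) 0 90275280030528 :=
  fun _ _ _ ha hb hc => Pool.Agent.CXD.t47T_neara ha hb hc
theorem n47_nearb : Tc xA (Lb.ex 4) (Lb.ex 7) (Lb.tl 547468829786112 562949953421312) 0 90275280030528 :=
  fun _ _ _ ha hb hc => Pool.Agent.CXD.t47T_nearb ha hb hc
theorem nr47_0 : Tc xA (Lb.ex 4) (Lb.ex 7) (Lb.tl 535397221269504 562949953421312) 0 90275280030528 :=
  ((n47_neara.sub (by norm_num) (by norm_num) : Tc xA (Lb.ex 4) (Lb.ex 7) (Lb.tl 535397221269504 547468829786112) 0 90275280030528).join3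
    (n47_nearb.sub (by norm_num) (by norm_num) : Tc xA (Lb.ex 4) (Lb.ex 7) (Lb.tl 547468829786112 562949953421312) 0 90275280030528) (touch 547468829786112))
theorem c47_0 : Tc xA (Lb.ex 4) (Lb.ex 7) (Lb.tl 535397221269504 562949953421312) 0 2251799813685248 :=
  (nr47_0.box (Lb.le_refl _) (Lb.le_refl _) (Lb.le_tl (by norm_num) (by norm_num))).join (Pool.Agent.Helper81.TK.E_4_7_T_mid.T.box (Lb.le_refl _) (Lb.le_refl _) (Lb.le_tl (by norm_num) (by norm_num))) (by norm_num) (by norm_num)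
theorem c47 : Tc xA (Lb.ex 4) (Lb.ex 7) (Lb.tl 535397221269504 562949953421312) 0 2251799813685248 :=
  (c47_0.sub (by norm_num) (by norm_num) : Tc xA (Lb.ex 4) (Lb.ex 7) (Lb.tl 535397221269504 562949953421312) 0 2251799813685248)
/-- the quarter `(4, 7, r)` on the exact line -/
theorem qx_4_7 : ∀ r, 10 ≤ r → QX 4 7 r (xA 4 7 r) :=
  qx_of_T (by norm_num) (by norm_num) (by norm_num) (by norm_num) c47 le_rfl (by norm_num)
    (by norm_num) (far_one (by norm_num) (by norm_num) (by norm_num) (by norm_num))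

theorem n48_neara : Tc xA (Lb.ex 4) (Lb.ex 8) (Lb.tl 535397221269504 547468829786112) 0 93693350299588 :=
  fun _ _ _ ha hb hc => Pool.Agent.CXD.t48T_neara ha hb hc
theorem n48_nearb : Tc xA (Lb.ex 4) (Lb.ex 8) (Lb.tl 547468829786112 562949953421312) 0 93693350299588 :=
  fun _ _ _ ha hb hc => Pool.Agent.CXD.t48T_nearb ha hb hc
theorem nr48_0 : Tc xA (Lb.ex 4) (Lb.ex 8) (Lb.tl 535397221269504 562949953421312) 0 93693350299588 :=
  ((n48_neara.sub (by norm_num) (by norm_num) : Tc xA (Lb.ex 4) (Lb.ex 8) (Lb.tl 535397221269504 547468829786112) 0 93693350299588).join3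
    (n48_nearb.sub (by norm_num) (by norm_num) : Tc xA (Lb.ex 4) (Lb.ex 8) (Lb.tl 547468829786112 562949953421312) 0 93693350299588) (touch 547468829786112))
theorem c48_0 : Tc xA (Lb.ex 4) (Lb.ex 8) (Lb.tl 535397221269504 562949953421312) 0 2251799813685248 :=
  (nr48_0.box (Lb.le_refl _) (Lb.le_refl _) (Lb.le_tl (by norm_num) (by norm_num))).join (Pool.Agent.Helper81.TK.E_4_8_T_mid.T.box (Lb.le_refl _) (Lb.le_refl _) (Lb.le_tl (by norm_num) (by norm_num))) (by norm_num) (by norm_num)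
theorem c48 : Tc xA (Lb.ex 4) (Lb.ex 8) (Lb.tl 535397221269504 562949953421312) 0 2251799813685248 :=
  (c48_0.sub (by norm_num) (by norm_num) : Tc xA (Lb.ex 4) (Lb.ex 8) (Lb.tl 535397221269504 562949953421312) 0 2251799813685248)
/-- the quarter `(4, 8, r)` on the exact line -/
theorem qx_4_8 : ∀ r, 10 ≤ r → QX 4 8 r (xA 4 8 r) :=
  qx_of_T (by norm_num) (by norm_num) (by norm_num) (by norm_num) c48 le_rfl (by norm_num)
    (by norm_num) (far_one (by norm_num) (by norm_num) (by norm_num) (by norm_num))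

theorem n49_neara : Tc xA (Lb.ex 4) (Lb.ex 9) (Lb.tl 535397221269504 547468829786112) 0 140737488355328 :=
  fun _ _ _ ha hb hc => Pool.Agent.CXD.t49T_neara ha hb hc
theorem n49_nearb : Tc xA (Lb.ex 4) (Lb.ex 9) (Lb.tl 547468829786112 562949953421312) 0 140737488355328 :=
  fun _ _ _ ha hb hc => Pool.Agent.CXD.t49T_nearb ha hb hc
theorem nr49_0 : Tc xA (Lb.ex 4) (Lb.ex 9) (Lb.tl 535397221269504 562949953421312) 0 140737488355328 :=
  ((n49_neara.sub (by norm_num) (by norm_num) : Tc xA (Lb.ex 4) (Lb.ex 9) (Lb.tl 535397221269504 547468829786112) 0 140737488355328).join3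
    (n49_nearb.sub (by norm_num) (by norm_num) : Tc xA (Lb.ex 4) (Lb.ex 9) (Lb.tl 547468829786112 562949953421312) 0 140737488355328) (touch 547468829786112))
theorem c49_0 : Tc xA (Lb.ex 4) (Lb.ex 9) (Lb.tl 535397221269504 562949953421312) 0 2251799813685248 :=
  (nr49_0.box (Lb.le_refl _) (Lb.le_refl _) (Lb.le_tl (by norm_num) (by norm_num))).join (Pool.Agent.Helper81.TK.E_4_9_T_mid.T.box (Lb.le_refl _) (Lb.le_refl _) (Lb.le_tl (by norm_num) (by norm_num))) (by norm_num) (by norm_num)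
theorem c49 : Tc xA (Lb.ex 4) (Lb.ex 9) (Lb.tl 535397221269504 562949953421312) 0 2251799813685248 :=
  (c49_0.sub (by norm_num) (by norm_num) : Tc xA (Lb.ex 4) (Lb.ex 9) (Lb.tl 535397221269504 562949953421312) 0 2251799813685248)
/-- the quarter `(4, 9, r)` on the exact line -/
theorem qx_4_9 : ∀ r, 10 ≤ r → QX 4 9 r (xA 4 9 r) :=
  qx_of_T (by norm_num) (by norm_num) (by norm_num) (by norm_num) c49 le_rfl (by norm_num)
    (by norm_num) (far_one (by norm_num) (by norm_num) (by norm_num) (by norm_num))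


end Pool.Agent.Helper81.OT
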