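import Pool.Agent.CXD.M_5_T_0
import Pool.Agent.CXD.M_5_T_1
import Pool.Agent.Helper6.CXT.CL4
import Pool.Agent.Helper81.MIT.Glu
import Pool.Agent.Helper81.TK.GM1

/-!
One tail, first order `5`: the quarters on the exact line.
-/

set_option autoImplicit false
set_option exponentiation.threshold 4000
noncomputable section
namespace Pool.Agent.Helper81.OT

open Pool.Agent.Helper81.MIT
open Pool.Agent.Helper6.MONO (xA)
open Pool.Agent.Helper6.MONO.QTR (QX)
open Pool.Agent.Helper6.CXT (far_one)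

theorem n54_near : Tc xA (Lb.ex 5) (Lb.ex 4) (Lb.tl 535397221269504 562949953421312) 0 140737488355328 :=
  fun _ _ _ ha hb hc => Pool.Agent.CXD.t54T_near ha hb hc
theorem nr54_0 : Tc xA (Lb.ex 5) (Lb.ex 4) (Lb.tl 535397221269504 562949953421312) 0 140737488355328 :=
  (n54_near.sub (by norm_num) (by norm_num) : Tc xA (Lb.ex 5) (Lb.ex 4) (Lb.tl 535397221269504 562949953421312) 0 140737488355328)
theorem c54_0 : Tc xA (Lb.ex 5) (Lb.ex 4) (Lb.tl 535397221269504 562949953421312) 0 2251799813685248 :=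
  (nr54_0.box (Lb.le_refl _) (Lb.le_refl _) (Lb.le_tl (by norm_num) (by norm_num))).join (Pool.Agent.Helper81.TK.E_5_4_T_mid.T.box (Lb.le_refl _) (Lb.le_refl _) (Lb.le_tl (by norm_num) (by norm_num))) (by norm_num) (by norm_num)
theorem c54 : Tc xA (Lb.ex 5) (Lb.ex 4) (Lb.tl 535397221269504 562949953421312) 0 2251799813685248 :=
  (c54_0.sub (by norm_num) (by norm_num) : Tc xA (Lb.ex 5) (Lb.ex 4) (Lb.tl 535397221269504 562949953421312) 0 2251799813685248)
/-- the quarter `(5, 4, r)` on the exact line -/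
theorem qx_5_4 : ∀ r, 10 ≤ r → QX 5 4 r (xA 5 4 r) :=
  qx_of_T (by norm_num) (by norm_num) (by norm_num) (by norm_num) c54 le_rfl (by norm_num)
    (by norm_num) (far_one (by norm_num) (by norm_num) (by norm_num) (by norm_num))

theorem n55_near : Tc xA (Lb.ex 5) (Lb.ex 5) (Lb.tl 535397221269504 562949953421312) 0 107898741072324 :=
  fun _ _ _ ha hb hc => Pool.Agent.CXD.t55T_near ha hb hc
theorem nr55_0 : Tc xA (Lb.ex 5) (Lb.ex 5) (Lb.tl 535397221269504 562949953421312) 0 107898741072324 :=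
  (n55_near.sub (by norm_num) (by norm_num) : Tc xA (Lb.ex 5) (Lb.ex 5) (Lb.tl 535397221269504 562949953421312) 0 107898741072324)
theorem c55_0 : Tc xA (Lb.ex 5) (Lb.ex 5) (Lb.tl 535397221269504 562949953421312) 0 2251799813685248 :=
  (nr55_0.box (Lb.le_refl _) (Lb.le_refl _) (Lb.le_tl (by norm_num) (by norm_num))).join (Pool.Agent.Helper81.TK.E_5_5_T_mid.T.box (Lb.le_refl _) (Lb.le_refl _) (Lb.le_tl (by norm_num) (by norm_num))) (by norm_num) (by norm_num)
theorem c55 : Tc xA (Lb.ex 5) (Lb.ex 5) (Lb.tl 535397221269504 562949953421312) 0 2251799813685248 :=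
  (c55_0.sub (by norm_num) (by norm_num) : Tc xA (Lb.ex 5) (Lb.ex 5) (Lb.tl 535397221269504 562949953421312) 0 2251799813685248)
/-- the quarter `(5, 5, r)` on the exact line -/
theorem qx_5_5 : ∀ r, 10 ≤ r → QX 5 5 r (xA 5 5 r) :=
  qx_of_T (by norm_num) (by norm_num) (by norm_num) (by norm_num) c55 le_rfl (by norm_num)
    (by norm_num) (far_one (by norm_num) (by norm_num) (by norm_num) (by norm_num))

theorem n56_neara : Tc xA (Lb.ex 5) (Lb.ex 6) (Lb.tl 535397221269504 547468829786112) 0 99263245161952 :=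
  fun _ _ _ ha hb hc => Pool.Agent.CXD.t56T_neara ha hb hc
theorem n56_nearb : Tc xA (Lb.ex 5) (Lb.ex 6) (Lb.tl 547468829786112 562949953421312) 0 99263245161952 :=
  fun _ _ _ ha hb hc => Pool.Agent.CXD.t56T_nearb ha hb hc
theorem nr56_0 : Tc xA (Lb.ex 5) (Lb.ex 6) (Lb.tl 535397221269504 562949953421312) 0 99263245161952 :=
  ((n56_neara.sub (by norm_num) (by norm_num) : Tc xA (Lb.ex 5) (Lb.ex 6) (Lb.tl 535397221269504 547468829786112) 0 99263245161952).join3
    (n56_nearb.sub (by norm_num) (by norm_num) : Tc xA (Lb.ex 5) (Lb.ex 6) (Lb.tl 547468829786112 562949953421312) 0 99263245161952) (touch 547468829786112))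
theorem c56_0 : Tc xA (Lb.ex 5) (Lb.ex 6) (Lb.tl 535397221269504 562949953421312) 0 2251799813685248 :=
  (nr56_0.box (Lb.le_refl _) (Lb.le_refl _) (Lb.le_tl (by norm_num) (by norm_num))).join (Pool.Agent.Helper81.TK.E_5_6_T_mid.T.box (Lb.le_refl _) (Lb.le_refl _) (Lb.le_tl (by norm_num) (by norm_num))) (by norm_num) (by norm_num)
theorem c56 : Tc xA (Lb.ex 5) (Lb.ex 6) (Lb.tl 535397221269504 562949953421312) 0 2251799813685248 :=
  (c56_0.sub (by norm_num) (by norm_num) : Tc xA (Lb.ex 5) (Lb.ex 6) (Lb.tl 535397221269504 562949953421312) 0 2251799813685248)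
/-- the quarter `(5, 6, r)` on the exact line -/
theorem qx_5_6 : ∀ r, 10 ≤ r → QX 5 6 r (xA 5 6 r) :=
  qx_of_T (by norm_num) (by norm_num) (by norm_num) (by norm_num) c56 le_rfl (by norm_num)
    (by norm_num) (far_one (by norm_num) (by norm_num) (by norm_num) (by norm_num))

theorem n57_neara : Tc xA (Lb.ex 5) (Lb.ex 7) (Lb.tl 535397221269504 547468829786112) 0 82722368155552 :=
  fun _ _ _ ha hb hc => Pool.Agent.CXD.t57T_neara ha hb hc
theorem n57_nearb : Tc xA (Lb.ex 5) (Lb.ex 7) (Lb.tl 547468829786112 562949953421312) 0 82722368155552 :=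
  fun _ _ _ ha hb hc => Pool.Agent.CXD.t57T_nearb ha hb hc
theorem nr57_0 : Tc xA (Lb.ex 5) (Lb.ex 7) (Lb.tl 535397221269504 562949953421312) 0 82722368155552 :=
  ((n57_neara.sub (by norm_num) (by norm_num) : Tc xA (Lb.ex 5) (Lb.ex 7) (Lb.tl 535397221269504 547468829786112) 0 82722368155552).join3
    (n57_nearb.sub (by norm_num) (by norm_num) : Tc xA (Lb.ex 5) (Lb.ex 7) (Lb.tl 547468829786112 562949953421312) 0 82722368155552) (touch 547468829786112))
theorem c57_0 : Tc xA (Lb.ex 5) (Lb.ex 7) (Lb.tl 535397221269504 562949953421312) 0 2251799813685248 :=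
  (nr57_0.box (Lb.le_refl _) (Lb.le_refl _) (Lb.le_tl (by norm_num) (by norm_num))).join (Pool.Agent.Helper81.TK.E_5_7_T_mid.T.box (Lb.le_refl _) (Lb.le_refl _) (Lb.le_tl (by norm_num) (by norm_num))) (by norm_num) (by norm_num)
theorem c57 : Tc xA (Lb.ex 5) (Lb.ex 7) (Lb.tl 535397221269504 562949953421312) 0 2251799813685248 :=
  (c57_0.sub (by norm_num) (by norm_num) : Tc xA (Lb.ex 5) (Lb.ex 7) (Lb.tl 535397221269504 562949953421312) 0 2251799813685248)
/-- the quarter `(5, 7, r)` on the exact line -/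
theorem qx_5_7 : ∀ r, 10 ≤ r → QX 5 7 r (xA 5 7 r) :=
  qx_of_T (by norm_num) (by norm_num) (by norm_num) (by norm_num) c57 le_rfl (by norm_num)
    (by norm_num) (far_one (by norm_num) (by norm_num) (by norm_num) (by norm_num))

theorem n58_neara : Tc xA (Lb.ex 5) (Lb.ex 8) (Lb.tl 535397221269504 547468829786112) 0 107106177906652 :=
  fun _ _ _ ha hb hc => Pool.Agent.CXD.t58T_neara ha hb hc
theorem n58_nearb : Tc xA (Lb.ex 5) (Lb.ex 8) (Lb.tl 547468829786112 562949953421312) 0 107106177906652 :=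
  fun _ _ _ ha hb hc => Pool.Agent.CXD.t58T_nearb ha hb hc
theorem nr58_0 : Tc xA (Lb.ex 5) (Lb.ex 8) (Lb.tl 535397221269504 562949953421312) 0 107106177906652 :=
  ((n58_neara.sub (by norm_num) (by norm_num) : Tc xA (Lb.ex 5) (Lb.ex 8) (Lb.tl 535397221269504 547468829786112) 0 107106177906652).join3
    (n58_nearb.sub (by norm_num) (by norm_num) : Tc xA (Lb.ex 5) (Lb.ex 8) (Lb.tl 547468829786112 562949953421312) 0 107106177906652) (touch 547468829786112))
theorem c58_0 : Tc xA (Lb.ex 5) (Lb.ex 8) (Lb.tl 535397221269504 562949953421312) 0 2251799813685248 :=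
  (nr58_0.box (Lb.le_refl _) (Lb.le_refl _) (Lb.le_tl (by norm_num) (by norm_num))).join (Pool.Agent.Helper81.TK.E_5_8_T_mid.T.box (Lb.le_refl _) (Lb.le_refl _) (Lb.le_tl (by norm_num) (by norm_num))) (by norm_num) (by norm_num)
theorem c58 : Tc xA (Lb.ex 5) (Lb.ex 8) (Lb.tl 535397221269504 562949953421312) 0 2251799813685248 :=
  (c58_0.sub (by norm_num) (by norm_num) : Tc xA (Lb.ex 5) (Lb.ex 8) (Lb.tl 535397221269504 562949953421312) 0 2251799813685248)
/-- the quarter `(5, 8, r)` on the exact line -/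
theorem qx_5_8 : ∀ r, 10 ≤ r → QX 5 8 r (xA 5 8 r) :=
  qx_of_T (by norm_num) (by norm_num) (by norm_num) (by norm_num) c58 le_rfl (by norm_num)
    (by norm_num) (far_one (by norm_num) (by norm_num) (by norm_num) (by norm_num))


end Pool.Agent.Helper81.OT
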