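import Pool.Agent.CXD.M_6_T_0
import Pool.Agent.CXD.M_6_T_1
import Pool.Agent.CXD.M_6_T_2
import Pool.Agent.Helper6.CXT.CL4
import Pool.Agent.Helper81.MIT.Glu
import Pool.Agent.Helper81.TK.GM2

/-!
One tail, first order `6`: the quarters on the exact line.
-/

set_option autoImplicit false
set_option exponentiation.threshold 4000
noncomputable section
namespace Pool.Agent.Helper81.OT

open Pool.Agent.Helper81.MIT
open Pool.Agent.Helper6.MONO (xA)
open Pool.Agent.Helper6.MONO.QTR (QX)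
open Pool.Agent.Helper6.CXT (far_one)

theorem n64_near : Tc xA (Lb.ex 6) (Lb.ex 4) (Lb.tl 535397221269504 562949953421312) 0 140737488355328 :=
  fun _ _ _ ha hb hc => Pool.Agent.CXD.t64T_near ha hb hc
theorem nr64_0 : Tc xA (Lb.ex 6) (Lb.ex 4) (Lb.tl 535397221269504 562949953421312) 0 140737488355328 :=
  (n64_near.sub (by norm_num) (by norm_num) : Tc xA (Lb.ex 6) (Lb.ex 4) (Lb.tl 535397221269504 562949953421312) 0 140737488355328)
theorem c64_0 : Tc xA (Lb.ex 6) (Lb.ex 4) (Lb.tl 535397221269504 562949953421312) 0 2251799813685248 :=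
  (nr64_0.box (Lb.le_refl _) (Lb.le_refl _) (Lb.le_tl (by norm_num) (by norm_num))).join (Pool.Agent.Helper81.TK.E_6_4_T_mid.T.box (Lb.le_refl _) (Lb.le_refl _) (Lb.le_tl (by norm_num) (by norm_num))) (by norm_num) (by norm_num)
theorem c64 : Tc xA (Lb.ex 6) (Lb.ex 4) (Lb.tl 535397221269504 562949953421312) 0 2251799813685248 :=
  (c64_0.sub (by norm_num) (by norm_num) : Tc xA (Lb.ex 6) (Lb.ex 4) (Lb.tl 535397221269504 562949953421312) 0 2251799813685248)
/-- the quarter `(6, 4, r)` on the exact line -/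
theorem qx_6_4 : ∀ r, 10 ≤ r → QX 6 4 r (xA 6 4 r) :=
  qx_of_T (by norm_num) (by norm_num) (by norm_num) (by norm_num) c64 le_rfl (by norm_num)
    (by norm_num) (far_one (by norm_num) (by norm_num) (by norm_num) (by norm_num))

theorem n65_near : Tc xA (Lb.ex 6) (Lb.ex 5) (Lb.tl 535397221269504 562949953421312) 0 82722368155552 :=
  fun _ _ _ ha hb hc => Pool.Agent.CXD.t65T_near ha hb hc
theorem nr65_0 : Tc xA (Lb.ex 6) (Lb.ex 5) (Lb.tl 535397221269504 562949953421312) 0 82722368155552 :=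
  (n65_near.sub (by norm_num) (by norm_num) : Tc xA (Lb.ex 6) (Lb.ex 5) (Lb.tl 535397221269504 562949953421312) 0 82722368155552)
theorem c65_0 : Tc xA (Lb.ex 6) (Lb.ex 5) (Lb.tl 535397221269504 562949953421312) 0 2251799813685248 :=
  (nr65_0.box (Lb.le_refl _) (Lb.le_refl _) (Lb.le_tl (by norm_num) (by norm_num))).join (Pool.Agent.Helper81.TK.E_6_5_T_mid.T.box (Lb.le_refl _) (Lb.le_refl _) (Lb.le_tl (by norm_num) (by norm_num))) (by norm_num) (by norm_num)
theorem c65 : Tc xA (Lb.ex 6) (Lb.ex 5) (Lb.tl 535397221269504 562949953421312) 0 2251799813685248 :=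
  (c65_0.sub (by norm_num) (by norm_num) : Tc xA (Lb.ex 6) (Lb.ex 5) (Lb.tl 535397221269504 562949953421312) 0 2251799813685248)
/-- the quarter `(6, 5, r)` on the exact line -/
theorem qx_6_5 : ∀ r, 10 ≤ r → QX 6 5 r (xA 6 5 r) :=
  qx_of_T (by norm_num) (by norm_num) (by norm_num) (by norm_num) c65 le_rfl (by norm_num)
    (by norm_num) (far_one (by norm_num) (by norm_num) (by norm_num) (by norm_num))

theorem n66_neara : Tc xA (Lb.ex 6) (Lb.ex 6) (Lb.tl 535397221269504 547468829786112) 0 87517325658784 :=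
  fun _ _ _ ha hb hc => Pool.Agent.CXD.t66T_neara ha hb hc
theorem n66_nearb : Tc xA (Lb.ex 6) (Lb.ex 6) (Lb.tl 547468829786112 562949953421312) 0 87517325658784 :=
  fun _ _ _ ha hb hc => Pool.Agent.CXD.t66T_nearb ha hb hc
theorem nr66_0 : Tc xA (Lb.ex 6) (Lb.ex 6) (Lb.tl 535397221269504 562949953421312) 0 87517325658784 :=
  ((n66_neara.sub (by norm_num) (by norm_num) : Tc xA (Lb.ex 6) (Lb.ex 6) (Lb.tl 535397221269504 547468829786112) 0 87517325658784).join3
    (n66_nearb.sub (by norm_num) (by norm_num) : Tc xA (Lb.ex 6) (Lb.ex 6) (Lb.tl 547468829786112 562949953421312) 0 87517325658784) (touch 547468829786112))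
theorem c66_0 : Tc xA (Lb.ex 6) (Lb.ex 6) (Lb.tl 535397221269504 562949953421312) 0 2251799813685248 :=
  (nr66_0.box (Lb.le_refl _) (Lb.le_refl _) (Lb.le_tl (by norm_num) (by norm_num))).join (Pool.Agent.Helper81.TK.E_6_6_T_mid.T.box (Lb.le_refl _) (Lb.le_refl _) (Lb.le_tl (by norm_num) (by norm_num))) (by norm_num) (by norm_num)
theorem c66 : Tc xA (Lb.ex 6) (Lb.ex 6) (Lb.tl 535397221269504 562949953421312) 0 2251799813685248 :=
  (c66_0.sub (by norm_num) (by norm_num) : Tc xA (Lb.ex 6) (Lb.ex 6) (Lb.tl 535397221269504 562949953421312) 0 2251799813685248)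
/-- the quarter `(6, 6, r)` on the exact line -/
theorem qx_6_6 : ∀ r, 10 ≤ r → QX 6 6 r (xA 6 6 r) :=
  qx_of_T (by norm_num) (by norm_num) (by norm_num) (by norm_num) c66 le_rfl (by norm_num)
    (by norm_num) (far_one (by norm_num) (by norm_num) (by norm_num) (by norm_num))

theorem n67_neara : Tc xA (Lb.ex 6) (Lb.ex 7) (Lb.tl 535397221269504 547468829786112) 0 72649254438972 :=
  fun _ _ _ ha hb hc => Pool.Agent.CXD.t67T_neara ha hb hc
theorem n67_nearb : Tc xA (Lb.ex 6) (Lb.ex 7) (Lb.tl 547468829786112 562949953421312) 0 72649254438972 :=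
  fun _ _ _ ha hb hc => Pool.Agent.CXD.t67T_nearb ha hb hc
theorem nr67_0 : Tc xA (Lb.ex 6) (Lb.ex 7) (Lb.tl 535397221269504 562949953421312) 0 72649254438972 :=
  ((n67_neara.sub (by norm_num) (by norm_num) : Tc xA (Lb.ex 6) (Lb.ex 7) (Lb.tl 535397221269504 547468829786112) 0 72649254438972).join3
    (n67_nearb.sub (by norm_num) (by norm_num) : Tc xA (Lb.ex 6) (Lb.ex 7) (Lb.tl 547468829786112 562949953421312) 0 72649254438972) (touch 547468829786112))
theorem c67_0 : Tc xA (Lb.ex 6) (Lb.ex 7) (Lb.tl 535397221269504 562949953421312) 0 2251799813685248 :=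
  (nr67_0.box (Lb.le_refl _) (Lb.le_refl _) (Lb.le_tl (by norm_num) (by norm_num))).join (Pool.Agent.Helper81.TK.E_6_7_T_mid.T.box (Lb.le_refl _) (Lb.le_refl _) (Lb.le_tl (by norm_num) (by norm_num))) (by norm_num) (by norm_num)
theorem c67 : Tc xA (Lb.ex 6) (Lb.ex 7) (Lb.tl 535397221269504 562949953421312) 0 2251799813685248 :=
  (c67_0.sub (by norm_num) (by norm_num) : Tc xA (Lb.ex 6) (Lb.ex 7) (Lb.tl 535397221269504 562949953421312) 0 2251799813685248)
/-- the quarter `(6, 7, r)` on the exact line -/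
theorem qx_6_7 : ∀ r, 10 ≤ r → QX 6 7 r (xA 6 7 r) :=
  qx_of_T (by norm_num) (by norm_num) (by norm_num) (by norm_num) c67 le_rfl (by norm_num)
    (by norm_num) (far_one (by norm_num) (by norm_num) (by norm_num) (by norm_num))

theorem n68_neara : Tc xA (Lb.ex 6) (Lb.ex 8) (Lb.tl 535397221269504 547468829786112) 0 84814039982456 :=
  fun _ _ _ ha hb hc => Pool.Agent.CXD.t68T_neara ha hb hc
theorem n68_nearb : Tc xA (Lb.ex 6) (Lb.ex 8) (Lb.tl 547468829786112 562949953421312) 0 84814039982456 :=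
  fun _ _ _ ha hb hc => Pool.Agent.CXD.t68T_nearb ha hb hc
theorem nr68_0 : Tc xA (Lb.ex 6) (Lb.ex 8) (Lb.tl 535397221269504 562949953421312) 0 84814039982456 :=
  ((n68_neara.sub (by norm_num) (by norm_num) : Tc xA (Lb.ex 6) (Lb.ex 8) (Lb.tl 535397221269504 547468829786112) 0 84814039982456).join3
    (n68_nearb.sub (by norm_num) (by norm_num) : Tc xA (Lb.ex 6) (Lb.ex 8) (Lb.tl 547468829786112 562949953421312) 0 84814039982456) (touch 547468829786112))
theorem c68_0 : Tc xA (Lb.ex 6) (Lb.ex 8) (Lb.tl 535397221269504 562949953421312) 0 2251799813685248 :=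
  (nr68_0.box (Lb.le_refl _) (Lb.le_refl _) (Lb.le_tl (by norm_num) (by norm_num))).join (Pool.Agent.Helper81.TK.E_6_8_T_mid.T.box (Lb.le_refl _) (Lb.le_refl _) (Lb.le_tl (by norm_num) (by norm_num))) (by norm_num) (by norm_num)
theorem c68 : Tc xA (Lb.ex 6) (Lb.ex 8) (Lb.tl 535397221269504 562949953421312) 0 2251799813685248 :=
  (c68_0.sub (by norm_num) (by norm_num) : Tc xA (Lb.ex 6) (Lb.ex 8) (Lb.tl 535397221269504 562949953421312) 0 2251799813685248)
/-- the quarter `(6, 8, r)` on the exact line -/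
theorem qx_6_8 : ∀ r, 10 ≤ r → QX 6 8 r (xA 6 8 r) :=
  qx_of_T (by norm_num) (by norm_num) (by norm_num) (by norm_num) c68 le_rfl (by norm_num)
    (by norm_num) (far_one (by norm_num) (by norm_num) (by norm_num) (by norm_num))

theorem n69_nearc : Tc xA (Lb.ex 6) (Lb.ex 9) (Lb.tl 535397221269504 540994905309184) 0 101853893935008 :=
  fun _ _ _ ha hb hc => Pool.Agent.CXD.t69T_nearc ha hb hc
theorem n69_neard : Tc xA (Lb.ex 6) (Lb.ex 9) (Lb.tl 540994905309184 547468829786112) 0 101853893935008 :=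
  fun _ _ _ ha hb hc => Pool.Agent.CXD.t69T_neard ha hb hc
theorem n69_nearb : Tc xA (Lb.ex 6) (Lb.ex 9) (Lb.tl 547468829786112 562949953421312) 0 101853893935008 :=
  fun _ _ _ ha hb hc => Pool.Agent.CXD.t69T_nearb ha hb hc
theorem nr69_0 : Tc xA (Lb.ex 6) (Lb.ex 9) (Lb.tl 535397221269504 562949953421312) 0 101853893935008 :=
  (((n69_nearc.sub (by norm_num) (by norm_num) : Tc xA (Lb.ex 6) (Lb.ex 9) (Lb.tl 535397221269504 540994905309184) 0 101853893935008).join3
    (n69_neard.sub (by norm_num) (by norm_num) : Tc xA (Lb.ex 6) (Lb.ex 9) (Lb.tl 540994905309184 547468829786112) 0 101853893935008) (touch 540994905309184)).join3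
    (n69_nearb.sub (by norm_num) (by norm_num) : Tc xA (Lb.ex 6) (Lb.ex 9) (Lb.tl 547468829786112 562949953421312) 0 101853893935008) (touch 547468829786112))
theorem c69_0 : Tc xA (Lb.ex 6) (Lb.ex 9) (Lb.tl 535397221269504 562949953421312) 0 2251799813685248 :=
  (nr69_0.box (Lb.le_refl _) (Lb.le_refl _) (Lb.le_tl (by norm_num) (by norm_num))).join (Pool.Agent.Helper81.TK.E_6_9_T_mid.T.box (Lb.le_refl _) (Lb.le_refl _) (Lb.le_tl (by norm_num) (by norm_num))) (by norm_num) (by norm_num)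
theorem c69 : Tc xA (Lb.ex 6) (Lb.ex 9) (Lb.tl 535397221269504 562949953421312) 0 2251799813685248 :=
  (c69_0.sub (by norm_num) (by norm_num) : Tc xA (Lb.ex 6) (Lb.ex 9) (Lb.tl 535397221269504 562949953421312) 0 2251799813685248)
/-- the quarter `(6, 9, r)` on the exact line -/
theorem qx_6_9 : ∀ r, 10 ≤ r → QX 6 9 r (xA 6 9 r) :=
  qx_of_T (by norm_num) (by norm_num) (by norm_num) (by norm_num) c69 le_rfl (by norm_num)
    (by norm_num) (far_one (by norm_num) (by norm_num) (by norm_num) (by norm_num))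


end Pool.Agent.Helper81.OT
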