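import Pool.Agent.CXD.M_7_T_0
import Pool.Agent.CXD.M_7_T_1
import Pool.Agent.Helper6.CXT.CL4
import Pool.Agent.Helper81.MIT.Glu
import Pool.Agent.Helper81.TK.GM2

/-!
One tail, first order `7`: the quarters on the exact line.
-/

set_option autoImplicit false
set_option exponentiation.threshold 4000
noncomputable section
namespace Pool.Agent.Helper81.OT

open Pool.Agent.Helper81.MIT
open Pool.Agent.Helper6.MONO (xA)
open Pool.Agent.Helper6.MONO.QTR (QX)
open Pool.Agent.Helper6.CXT (far_one)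

theorem n74_neara : Tc xA (Lb.ex 7) (Lb.ex 4) (Lb.tl 535397221269504 547468829786112) 0 140737488355328 :=
  fun _ _ _ ha hb hc => Pool.Agent.CXD.t74T_neara ha hb hc
theorem n74_nearb : Tc xA (Lb.ex 7) (Lb.ex 4) (Lb.tl 547468829786112 562949953421312) 0 140737488355328 :=
  fun _ _ _ ha hb hc => Pool.Agent.CXD.t74T_nearb ha hb hc
theorem nr74_0 : Tc xA (Lb.ex 7) (Lb.ex 4) (Lb.tl 535397221269504 562949953421312) 0 140737488355328 :=
  ((n74_neara.sub (by norm_num) (by norm_num) : Tc xA (Lb.ex 7) (Lb.ex 4) (Lb.tl 535397221269504 547468829786112) 0 140737488355328).join3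
    (n74_nearb.sub (by norm_num) (by norm_num) : Tc xA (Lb.ex 7) (Lb.ex 4) (Lb.tl 547468829786112 562949953421312) 0 140737488355328) (touch 547468829786112))
theorem c74_0 : Tc xA (Lb.ex 7) (Lb.ex 4) (Lb.tl 535397221269504 562949953421312) 0 2251799813685248 :=
  (nr74_0.box (Lb.le_refl _) (Lb.le_refl _) (Lb.le_tl (by norm_num) (by norm_num))).join (Pool.Agent.Helper81.TK.E_7_4_T_mid.T.box (Lb.le_refl _) (Lb.le_refl _) (Lb.le_tl (by norm_num) (by norm_num))) (by norm_num) (by norm_num)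
theorem c74 : Tc xA (Lb.ex 7) (Lb.ex 4) (Lb.tl 535397221269504 562949953421312) 0 2251799813685248 :=
  (c74_0.sub (by norm_num) (by norm_num) : Tc xA (Lb.ex 7) (Lb.ex 4) (Lb.tl 535397221269504 562949953421312) 0 2251799813685248)
/-- the quarter `(7, 4, r)` on the exact line -/
theorem qx_7_4 : ∀ r, 10 ≤ r → QX 7 4 r (xA 7 4 r) :=
  qx_of_T (by norm_num) (by norm_num) (by norm_num) (by norm_num) c74 le_rfl (by norm_num)
    (by norm_num) (far_one (by norm_num) (by norm_num) (by norm_num) (by norm_num))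

theorem n75_near : Tc xA (Lb.ex 7) (Lb.ex 5) (Lb.tl 535397221269504 562949953421312) 0 140737488355328 :=
  fun _ _ _ ha hb hc => Pool.Agent.CXD.t75T_near ha hb hc
theorem nr75_0 : Tc xA (Lb.ex 7) (Lb.ex 5) (Lb.tl 535397221269504 562949953421312) 0 140737488355328 :=
  (n75_near.sub (by norm_num) (by norm_num) : Tc xA (Lb.ex 7) (Lb.ex 5) (Lb.tl 535397221269504 562949953421312) 0 140737488355328)
theorem c75_0 : Tc xA (Lb.ex 7) (Lb.ex 5) (Lb.tl 535397221269504 562949953421312) 0 2251799813685248 :=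
  (nr75_0.box (Lb.le_refl _) (Lb.le_refl _) (Lb.le_tl (by norm_num) (by norm_num))).join (Pool.Agent.Helper81.TK.E_7_5_T_mid.T.box (Lb.le_refl _) (Lb.le_refl _) (Lb.le_tl (by norm_num) (by norm_num))) (by norm_num) (by norm_num)
theorem c75 : Tc xA (Lb.ex 7) (Lb.ex 5) (Lb.tl 535397221269504 562949953421312) 0 2251799813685248 :=
  (c75_0.sub (by norm_num) (by norm_num) : Tc xA (Lb.ex 7) (Lb.ex 5) (Lb.tl 535397221269504 562949953421312) 0 2251799813685248)
/-- the quarter `(7, 5, r)` on the exact line -/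
theorem qx_7_5 : ∀ r, 10 ≤ r → QX 7 5 r (xA 7 5 r) :=
  qx_of_T (by norm_num) (by norm_num) (by norm_num) (by norm_num) c75 le_rfl (by norm_num)
    (by norm_num) (far_one (by norm_num) (by norm_num) (by norm_num) (by norm_num))

theorem n76_neara : Tc xA (Lb.ex 7) (Lb.ex 6) (Lb.tl 535397221269504 547468829786112) 0 107898741072324 :=
  fun _ _ _ ha hb hc => Pool.Agent.CXD.t76T_neara ha hb hc
theorem n76_nearb : Tc xA (Lb.ex 7) (Lb.ex 6) (Lb.tl 547468829786112 562949953421312) 0 107898741072324 :=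
  fun _ _ _ ha hb hc => Pool.Agent.CXD.t76T_nearb ha hb hc
theorem nr76_0 : Tc xA (Lb.ex 7) (Lb.ex 6) (Lb.tl 535397221269504 562949953421312) 0 107898741072324 :=
  ((n76_neara.sub (by norm_num) (by norm_num) : Tc xA (Lb.ex 7) (Lb.ex 6) (Lb.tl 535397221269504 547468829786112) 0 107898741072324).join3
    (n76_nearb.sub (by norm_num) (by norm_num) : Tc xA (Lb.ex 7) (Lb.ex 6) (Lb.tl 547468829786112 562949953421312) 0 107898741072324) (touch 547468829786112))
theorem c76_0 : Tc xA (Lb.ex 7) (Lb.ex 6) (Lb.tl 535397221269504 562949953421312) 0 2251799813685248 :=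
  (nr76_0.box (Lb.le_refl _) (Lb.le_refl _) (Lb.le_tl (by norm_num) (by norm_num))).join (Pool.Agent.Helper81.TK.E_7_6_T_mid.T.box (Lb.le_refl _) (Lb.le_refl _) (Lb.le_tl (by norm_num) (by norm_num))) (by norm_num) (by norm_num)
theorem c76 : Tc xA (Lb.ex 7) (Lb.ex 6) (Lb.tl 535397221269504 562949953421312) 0 2251799813685248 :=
  (c76_0.sub (by norm_num) (by norm_num) : Tc xA (Lb.ex 7) (Lb.ex 6) (Lb.tl 535397221269504 562949953421312) 0 2251799813685248)
/-- the quarter `(7, 6, r)` on the exact line -/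
theorem qx_7_6 : ∀ r, 10 ≤ r → QX 7 6 r (xA 7 6 r) :=
  qx_of_T (by norm_num) (by norm_num) (by norm_num) (by norm_num) c76 le_rfl (by norm_num)
    (by norm_num) (far_one (by norm_num) (by norm_num) (by norm_num) (by norm_num))

theorem n77_neara : Tc xA (Lb.ex 7) (Lb.ex 7) (Lb.tl 535397221269504 547468829786112) 0 99725411436088 :=
  fun _ _ _ ha hb hc => Pool.Agent.CXD.t77T_neara ha hb hc
theorem n77_nearb : Tc xA (Lb.ex 7) (Lb.ex 7) (Lb.tl 547468829786112 562949953421312) 0 99725411436088 :=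
  fun _ _ _ ha hb hc => Pool.Agent.CXD.t77T_nearb ha hb hc
theorem nr77_0 : Tc xA (Lb.ex 7) (Lb.ex 7) (Lb.tl 535397221269504 562949953421312) 0 99725411436088 :=
  ((n77_neara.sub (by norm_num) (by norm_num) : Tc xA (Lb.ex 7) (Lb.ex 7) (Lb.tl 535397221269504 547468829786112) 0 99725411436088).join3
    (n77_nearb.sub (by norm_num) (by norm_num) : Tc xA (Lb.ex 7) (Lb.ex 7) (Lb.tl 547468829786112 562949953421312) 0 99725411436088) (touch 547468829786112))
theorem c77_0 : Tc xA (Lb.ex 7) (Lb.ex 7) (Lb.tl 535397221269504 562949953421312) 0 2251799813685248 :=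
  (nr77_0.box (Lb.le_refl _) (Lb.le_refl _) (Lb.le_tl (by norm_num) (by norm_num))).join (Pool.Agent.Helper81.TK.E_7_7_T_mid.T.box (Lb.le_refl _) (Lb.le_refl _) (Lb.le_tl (by norm_num) (by norm_num))) (by norm_num) (by norm_num)
theorem c77 : Tc xA (Lb.ex 7) (Lb.ex 7) (Lb.tl 535397221269504 562949953421312) 0 2251799813685248 :=
  (c77_0.sub (by norm_num) (by norm_num) : Tc xA (Lb.ex 7) (Lb.ex 7) (Lb.tl 535397221269504 562949953421312) 0 2251799813685248)
/-- the quarter `(7, 7, r)` on the exact line -/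
theorem qx_7_7 : ∀ r, 10 ≤ r → QX 7 7 r (xA 7 7 r) :=
  qx_of_T (by norm_num) (by norm_num) (by norm_num) (by norm_num) c77 le_rfl (by norm_num)
    (by norm_num) (far_one (by norm_num) (by norm_num) (by norm_num) (by norm_num))


end Pool.Agent.Helper81.OT
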