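import Pool.Agent.CXD.M_8_T_0
import Pool.Agent.CXD.M_8_T_1
import Pool.Agent.Helper6.CXT.CL4
import Pool.Agent.Helper81.MIT.Glu
import Pool.Agent.Helper81.TK.GM3

/-!
One tail, first order `8`: the quarters on the exact line.
-/

set_option autoImplicit false
set_option exponentiation.threshold 4000
noncomputable section
namespace Pool.Agent.Helper81.OT

open Pool.Agent.Helper81.MIT
open Pool.Agent.Helper6.MONO (xA)
open Pool.Agent.Helper6.MONO.QTR (QX)
open Pool.Agent.Helper6.CXT (far_one)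

theorem n84_neara : Tc xA (Lb.ex 8) (Lb.ex 4) (Lb.tl 535397221269504 547468829786112) 0 143343477514612 :=
  fun _ _ _ ha hb hc => Pool.Agent.CXD.t84T_neara ha hb hc
theorem n84_nearb : Tc xA (Lb.ex 8) (Lb.ex 4) (Lb.tl 547468829786112 562949953421312) 0 143343477514612 :=
  fun _ _ _ ha hb hc => Pool.Agent.CXD.t84T_nearb ha hb hc
theorem nr84_0 : Tc xA (Lb.ex 8) (Lb.ex 4) (Lb.tl 535397221269504 562949953421312) 0 143343477514612 :=
  ((n84_neara.sub (by norm_num) (by norm_num) : Tc xA (Lb.ex 8) (Lb.ex 4) (Lb.tl 535397221269504 547468829786112) 0 143343477514612).join3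
    (n84_nearb.sub (by norm_num) (by norm_num) : Tc xA (Lb.ex 8) (Lb.ex 4) (Lb.tl 547468829786112 562949953421312) 0 143343477514612) (touch 547468829786112))
theorem c84_0 : Tc xA (Lb.ex 8) (Lb.ex 4) (Lb.tl 535397221269504 562949953421312) 0 2251799813685248 :=
  (nr84_0.box (Lb.le_refl _) (Lb.le_refl _) (Lb.le_tl (by norm_num) (by norm_num))).join (Pool.Agent.Helper81.TK.E_8_4_T_mid.T.box (Lb.le_refl _) (Lb.le_refl _) (Lb.le_tl (by norm_num) (by norm_num))) (by norm_num) (by norm_num)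
theorem c84 : Tc xA (Lb.ex 8) (Lb.ex 4) (Lb.tl 535397221269504 562949953421312) 0 2251799813685248 :=
  (c84_0.sub (by norm_num) (by norm_num) : Tc xA (Lb.ex 8) (Lb.ex 4) (Lb.tl 535397221269504 562949953421312) 0 2251799813685248)
/-- the quarter `(8, 4, r)` on the exact line -/
theorem qx_8_4 : ∀ r, 10 ≤ r → QX 8 4 r (xA 8 4 r) :=
  qx_of_T (by norm_num) (by norm_num) (by norm_num) (by norm_num) c84 le_rfl (by norm_num)
    (by norm_num) (far_one (by norm_num) (by norm_num) (by norm_num) (by norm_num))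

theorem n85_neara : Tc xA (Lb.ex 8) (Lb.ex 5) (Lb.tl 535397221269504 547468829786112) 0 140737488355328 :=
  fun _ _ _ ha hb hc => Pool.Agent.CXD.t85T_neara ha hb hc
theorem n85_nearb : Tc xA (Lb.ex 8) (Lb.ex 5) (Lb.tl 547468829786112 562949953421312) 0 140737488355328 :=
  fun _ _ _ ha hb hc => Pool.Agent.CXD.t85T_nearb ha hb hc
theorem nr85_0 : Tc xA (Lb.ex 8) (Lb.ex 5) (Lb.tl 535397221269504 562949953421312) 0 140737488355328 :=
  ((n85_neara.sub (by norm_num) (by norm_num) : Tc xA (Lb.ex 8) (Lb.ex 5) (Lb.tl 535397221269504 547468829786112) 0 140737488355328).join3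
    (n85_nearb.sub (by norm_num) (by norm_num) : Tc xA (Lb.ex 8) (Lb.ex 5) (Lb.tl 547468829786112 562949953421312) 0 140737488355328) (touch 547468829786112))
theorem c85_0 : Tc xA (Lb.ex 8) (Lb.ex 5) (Lb.tl 535397221269504 562949953421312) 0 2251799813685248 :=
  (nr85_0.box (Lb.le_refl _) (Lb.le_refl _) (Lb.le_tl (by norm_num) (by norm_num))).join (Pool.Agent.Helper81.TK.E_8_5_T_mid.T.box (Lb.le_refl _) (Lb.le_refl _) (Lb.le_tl (by norm_num) (by norm_num))) (by norm_num) (by norm_num)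
theorem c85 : Tc xA (Lb.ex 8) (Lb.ex 5) (Lb.tl 535397221269504 562949953421312) 0 2251799813685248 :=
  (c85_0.sub (by norm_num) (by norm_num) : Tc xA (Lb.ex 8) (Lb.ex 5) (Lb.tl 535397221269504 562949953421312) 0 2251799813685248)
/-- the quarter `(8, 5, r)` on the exact line -/
theorem qx_8_5 : ∀ r, 10 ≤ r → QX 8 5 r (xA 8 5 r) :=
  qx_of_T (by norm_num) (by norm_num) (by norm_num) (by norm_num) c85 le_rfl (by norm_num)
    (by norm_num) (far_one (by norm_num) (by norm_num) (by norm_num) (by norm_num))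

theorem n86_neara : Tc xA (Lb.ex 8) (Lb.ex 6) (Lb.tl 535397221269504 547468829786112) 0 107898741072324 :=
  fun _ _ _ ha hb hc => Pool.Agent.CXD.t86T_neara ha hb hc
theorem n86_nearb : Tc xA (Lb.ex 8) (Lb.ex 6) (Lb.tl 547468829786112 562949953421312) 0 107898741072324 :=
  fun _ _ _ ha hb hc => Pool.Agent.CXD.t86T_nearb ha hb hc
theorem nr86_0 : Tc xA (Lb.ex 8) (Lb.ex 6) (Lb.tl 535397221269504 562949953421312) 0 107898741072324 :=
  ((n86_neara.sub (by norm_num) (by norm_num) : Tc xA (Lb.ex 8) (Lb.ex 6) (Lb.tl 535397221269504 547468829786112) 0 107898741072324).join3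
    (n86_nearb.sub (by norm_num) (by norm_num) : Tc xA (Lb.ex 8) (Lb.ex 6) (Lb.tl 547468829786112 562949953421312) 0 107898741072324) (touch 547468829786112))
theorem c86_0 : Tc xA (Lb.ex 8) (Lb.ex 6) (Lb.tl 535397221269504 562949953421312) 0 2251799813685248 :=
  (nr86_0.box (Lb.le_refl _) (Lb.le_refl _) (Lb.le_tl (by norm_num) (by norm_num))).join (Pool.Agent.Helper81.TK.E_8_6_T_mid.T.box (Lb.le_refl _) (Lb.le_refl _) (Lb.le_tl (by norm_num) (by norm_num))) (by norm_num) (by norm_num)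
theorem c86 : Tc xA (Lb.ex 8) (Lb.ex 6) (Lb.tl 535397221269504 562949953421312) 0 2251799813685248 :=
  (c86_0.sub (by norm_num) (by norm_num) : Tc xA (Lb.ex 8) (Lb.ex 6) (Lb.tl 535397221269504 562949953421312) 0 2251799813685248)
/-- the quarter `(8, 6, r)` on the exact line -/
theorem qx_8_6 : ∀ r, 10 ≤ r → QX 8 6 r (xA 8 6 r) :=
  qx_of_T (by norm_num) (by norm_num) (by norm_num) (by norm_num) c86 le_rfl (by norm_num)
    (by norm_num) (far_one (by norm_num) (by norm_num) (by norm_num) (by norm_num))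

theorem n87_neara : Tc xA (Lb.ex 8) (Lb.ex 7) (Lb.tl 535397221269504 547468829786112) 0 93824992236792 :=
  fun _ _ _ ha hb hc => Pool.Agent.CXD.t87T_neara ha hb hc
theorem n87_nearb : Tc xA (Lb.ex 8) (Lb.ex 7) (Lb.tl 547468829786112 562949953421312) 0 93824992236792 :=
  fun _ _ _ ha hb hc => Pool.Agent.CXD.t87T_nearb ha hb hc
theorem nr87_0 : Tc xA (Lb.ex 8) (Lb.ex 7) (Lb.tl 535397221269504 562949953421312) 0 93824992236792 :=
  ((n87_neara.sub (by norm_num) (by norm_num) : Tc xA (Lb.ex 8) (Lb.ex 7) (Lb.tl 535397221269504 547468829786112) 0 93824992236792).join3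
    (n87_nearb.sub (by norm_num) (by norm_num) : Tc xA (Lb.ex 8) (Lb.ex 7) (Lb.tl 547468829786112 562949953421312) 0 93824992236792) (touch 547468829786112))
theorem c87_0 : Tc xA (Lb.ex 8) (Lb.ex 7) (Lb.tl 535397221269504 562949953421312) 0 2251799813685248 :=
  (nr87_0.box (Lb.le_refl _) (Lb.le_refl _) (Lb.le_tl (by norm_num) (by norm_num))).join (Pool.Agent.Helper81.TK.E_8_7_T_mid.T.box (Lb.le_refl _) (Lb.le_refl _) (Lb.le_tl (by norm_num) (by norm_num))) (by norm_num) (by norm_num)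
theorem c87 : Tc xA (Lb.ex 8) (Lb.ex 7) (Lb.tl 535397221269504 562949953421312) 0 2251799813685248 :=
  (c87_0.sub (by norm_num) (by norm_num) : Tc xA (Lb.ex 8) (Lb.ex 7) (Lb.tl 535397221269504 562949953421312) 0 2251799813685248)
/-- the quarter `(8, 7, r)` on the exact line -/
theorem qx_8_7 : ∀ r, 10 ≤ r → QX 8 7 r (xA 8 7 r) :=
  qx_of_T (by norm_num) (by norm_num) (by norm_num) (by norm_num) c87 le_rfl (by norm_num)
    (by norm_num) (far_one (by norm_num) (by norm_num) (by norm_num) (by norm_num))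


end Pool.Agent.Helper81.OT
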