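import Pool.Agent.CXD.M_9_T_0
import Pool.Agent.Helper6.CXT.CL4
import Pool.Agent.Helper81.MIT.Glu
import Pool.Agent.Helper81.TK.GM3

/-!
One tail, first order `9`: the quarters on the exact line.
-/

set_option autoImplicit false
set_option exponentiation.threshold 4000
noncomputable section
namespace Pool.Agent.Helper81.OT

open Pool.Agent.Helper81.MIT
open Pool.Agent.Helper6.MONO (xA)
open Pool.Agent.Helper6.MONO.QTR (QX)
open Pool.Agent.Helper6.CXT (far_one)

theorem n94_neara : Tc xA (Lb.ex 9) (Lb.ex 4) (Lb.tl 535397221269504 547468829786112) 0 140737488355328 :=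
  fun _ _ _ ha hb hc => Pool.Agent.CXD.t94T_neara ha hb hc
theorem n94_nearb : Tc xA (Lb.ex 9) (Lb.ex 4) (Lb.tl 547468829786112 562949953421312) 0 140737488355328 :=
  fun _ _ _ ha hb hc => Pool.Agent.CXD.t94T_nearb ha hb hc
theorem nr94_0 : Tc xA (Lb.ex 9) (Lb.ex 4) (Lb.tl 535397221269504 562949953421312) 0 140737488355328 :=
  ((n94_neara.sub (by norm_num) (by norm_num) : Tc xA (Lb.ex 9) (Lb.ex 4) (Lb.tl 535397221269504 547468829786112) 0 140737488355328).join3
    (n94_nearb.sub (by norm_num) (by norm_num) : Tc xA (Lb.ex 9) (Lb.ex 4) (Lb.tl 547468829786112 562949953421312) 0 140737488355328) (touch 547468829786112))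
theorem c94_0 : Tc xA (Lb.ex 9) (Lb.ex 4) (Lb.tl 535397221269504 562949953421312) 0 2251799813685248 :=
  (nr94_0.box (Lb.le_refl _) (Lb.le_refl _) (Lb.le_tl (by norm_num) (by norm_num))).join (Pool.Agent.Helper81.TK.E_9_4_T_mid.T.box (Lb.le_refl _) (Lb.le_refl _) (Lb.le_tl (by norm_num) (by norm_num))) (by norm_num) (by norm_num)
theorem c94 : Tc xA (Lb.ex 9) (Lb.ex 4) (Lb.tl 535397221269504 562949953421312) 0 2251799813685248 :=
  (c94_0.sub (by norm_num) (by norm_num) : Tc xA (Lb.ex 9) (Lb.ex 4) (Lb.tl 535397221269504 562949953421312) 0 2251799813685248)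
/-- the quarter `(9, 4, r)` on the exact line -/
theorem qx_9_4 : ∀ r, 10 ≤ r → QX 9 4 r (xA 9 4 r) :=
  qx_of_T (by norm_num) (by norm_num) (by norm_num) (by norm_num) c94 le_rfl (by norm_num)
    (by norm_num) (far_one (by norm_num) (by norm_num) (by norm_num) (by norm_num))


end Pool.Agent.Helper81.OT
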