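import Pool.Agent.Helper81.OT.H2a
import Pool.Agent.Helper81.OT.Q4
import Pool.Agent.Helper81.OT.Q5
import Pool.Agent.Helper81.OT.Q6
import Pool.Agent.Helper81.OT.Q7
import Pool.Agent.Helper81.OT.Q8
import Pool.Agent.Helper81.OT.Q9

/-!
One tail: all arcs with an order at most `4`.
-/

set_option autoImplicit false
noncomputable section
namespace Pool.Agent.Helper81.OT

open Pool.Agent.Helper6.MONO (xA)
open Pool.Agent.Helper6.MONO.QTR (QX)

/-- the arcs `(a, b, r)` with `a` or `b` at most `4` -/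
theorem h2_4 : ∀ a b : ℕ, 3 ≤ a → a ≤ 9 → 3 ≤ b → b ≤ 9 → (a ≤ 4 ∨ b ≤ 4) →
    ∀ r, 10 ≤ r → QX a b r (xA a b r) := by
  intro a b ha ha9 hb hb9 h
  by_cases h3 : a ≤ 3 ∨ b ≤ 3
  · exact h2_3 a b ha ha9 hb hb9 h3
  · rcases h with h | h
    · obtain rfl : a = 4 := by omega
      have hb4 : 4 ≤ b := by omega
      interval_cases b
      · exact qx_4_4
      · exact qx_4_5
      · exact qx_4_6
      · exact qx_4_7
      · exact qx_4_8
      · exact qx_4_9
    · obtain rfl : b = 4 := by omega
      have ha4 : 4 ≤ a := by omega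
      interval_cases a
      · exact qx_4_4
      · exact qx_5_4
      · exact qx_6_4
      · exact qx_7_4
      · exact qx_8_4
      · exact qx_9_4

end Pool.Agent.Helper81.OT
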