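import Pool.Agent.CXD.M_9_T_1
import Pool.Agent.CXD.M_9_T_2
import Pool.Agent.Helper6.CXT.CL4
import Pool.Agent.Helper81.MIT.Glu
import Pool.Agent.Helper81.TK.GM3

/-!
One tail, first order `9`: the quarters on the exact line.
-/

set_option autoImplicit false
set_option exponentiation.threshold 4000
noncomputable section
namespace Pool.Agent.Helper81.OT

open Pool.Agent.Helper81.MIT
open Pool.Agent.Helper6.MONO (xA)
open Pool.Agent.Helper6.MONO.QTR (QX)
open Pool.Agent.Helper6.CXT (far_one)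

theorem n96_nearc : Tc xA (Lb.ex 9) (Lb.ex 6) (Lb.tl 535397221269504 540994905309184) 0 107898741072324 :=
  fun _ _ _ ha hb hc => tc_sub (Pool.Agent.CXD.t96T_nearc ha hb hc) (by norm_num) (by norm_num)
theorem n96_neard : Tc xA (Lb.ex 9) (Lb.ex 6) (Lb.tl 540994905309184 547468829786112) 0 107898741072324 :=
  fun _ _ _ ha hb hc => tc_sub (Pool.Agent.CXD.t96T_neard ha hb hc) (by norm_num) (by norm_num)
theorem n96_nearb : Tc xA (Lb.ex 9) (Lb.ex 6) (Lb.tl 547468829786112 562949953421312) 0 107898741072324 :=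
  fun _ _ _ ha hb hc => tc_sub (Pool.Agent.CXD.t96T_nearb ha hb hc) (by norm_num) (by norm_num)
theorem nr96_0 : Tc xA (Lb.ex 9) (Lb.ex 6) (Lb.tl 535397221269504 562949953421312) 0 107898741072324 :=
  (((n96_nearc.sub (by norm_num) (by norm_num) : Tc xA (Lb.ex 9) (Lb.ex 6) (Lb.tl 535397221269504 540994905309184) 0 107898741072324).join3
    (n96_neard.sub (by norm_num) (by norm_num) : Tc xA (Lb.ex 9) (Lb.ex 6) (Lb.tl 540994905309184 547468829786112) 0 107898741072324) (touch 540994905309184)).join3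
    (n96_nearb.sub (by norm_num) (by norm_num) : Tc xA (Lb.ex 9) (Lb.ex 6) (Lb.tl 547468829786112 562949953421312) 0 107898741072324) (touch 547468829786112))
theorem c96_0 : Tc xA (Lb.ex 9) (Lb.ex 6) (Lb.tl 535397221269504 562949953421312) 0 2251799813685248 :=
  (nr96_0.box (Lb.le_refl _) (Lb.le_refl _) (Lb.le_tl (by norm_num) (by norm_num))).join (Pool.Agent.Helper81.TK.E_9_6_T_mid.T.box (Lb.le_refl _) (Lb.le_refl _) (Lb.le_tl (by norm_num) (by norm_num))) (by norm_num) (by norm_num)
theorem c96 : Tc xA (Lb.ex 9) (Lb.ex 6) (Lb.tl 535397221269504 562949953421312) 0 2251799813685248 :=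
  (c96_0.sub (by norm_num) (by norm_num) : Tc xA (Lb.ex 9) (Lb.ex 6) (Lb.tl 535397221269504 562949953421312) 0 2251799813685248)
/-- the quarter `(9, 6, r)` on the exact line -/
theorem qx_9_6 : ∀ r, 10 ≤ r → QX 9 6 r (xA 9 6 r) :=
  qx_of_T (by norm_num) (by norm_num) (by norm_num) (by norm_num) c96 le_rfl (by norm_num)
    (by norm_num) (far_one (by norm_num) (by norm_num) (by norm_num) (by norm_num))


end Pool.Agent.Helper81.OT
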