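import Pool.Agent.CXD.M_7_T_2
import Pool.Agent.Helper6.CXT.CL4
import Pool.Agent.Helper81.MIT.RowB
import Pool.Agent.Helper81.TK.GM2

/-!
One tail: the arc `(7, 8, r)`, near cells with twins.
-/

set_option autoImplicit false
set_option exponentiation.threshold 4000
noncomputable section
namespace Pool.Agent.Helper81.OT

open Pool.Agent.Helper81.MIT
open Pool.Agent.Helper6.MONO (xA)
open Pool.Agent.Helper57.U2 (TCellU)
open Pool.Agent.Helper84.ST (QXS)
open Pool.Agent.Helper6.CXT (far_one)

theorem s78_10 {r : ℕ} (h1 : 10 ≤ r) (h2 : r ≤ 11) : QXS 7 8 r (xA 7 8 r) := by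
  have k0 : TCellU 7 8 r (xA 7 8 r) 0 ((107898741072324 : ℕ) / 2 ^ 48) := tcu_sub (TCellU.of_t (Pool.Agent.CXD.t78T_nearc (ex_has (by norm_num) (by norm_num)) (ex_has (by norm_num) (by norm_num)) (inB_ok (P := (10, 11)) (b := (535397221269504, 540994905309184)) (by decide +kernel) ⟨h1, Or.inr h2⟩))) (by norm_num) le_rfl
  exact qxS_A (by norm_num) (by norm_num) (by omega) (by omega) Pool.Agent.Helper81.TK.E_7_8_T_mid.T (ex_has (by norm_num) (by norm_num)) (ex_has (by norm_num) (by norm_num))
    (inB_ok (P := (10, 11)) (b := (535397221269504, 562949953421312)) (by decide +kernel) ⟨h1, Or.inr h2⟩) k0 (by norm_num) (by norm_num) (by norm_num)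
    (far_one (by norm_num) (by norm_num) (by norm_num) (by norm_num) r (by omega))

theorem s78_12 {r : ℕ} (h1 : 12 ≤ r) (h2 : r ≤ 13) : QXS 7 8 r (xA 7 8 r) := by
  have k0 : TCellU 7 8 r (xA 7 8 r) 0 ((107898741072324 : ℕ) / 2 ^ 48) := tcu_sub (TCellU.of_t (Pool.Agent.CXD.t78T_neard (ex_has (by norm_num) (by norm_num)) (ex_has (by norm_num) (by norm_num)) (inB_ok (P := (12, 13)) (b := (540994905309184, 547468829786112)) (by decide +kernel) ⟨h1, Or.inr h2⟩))) (by norm_num) le_rfl
  exact qxS_A (by norm_num) (by norm_num) (by omega) (by omega) Pool.Agent.Helper81.TK.E_7_8_T_mid.T (ex_has (by norm_num) (by norm_num)) (ex_has (by norm_num) (by norm_num))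
    (inB_ok (P := (12, 13)) (b := (535397221269504, 562949953421312)) (by decide +kernel) ⟨h1, Or.inr h2⟩) k0 (by norm_num) (by norm_num) (by norm_num)
    (far_one (by norm_num) (by norm_num) (by norm_num) (by norm_num) r (by omega))

theorem s78_14 {r : ℕ} (h1 : 14 ≤ r) : QXS 7 8 r (xA 7 8 r) := by
  have k0 : TCellU 7 8 r (xA 7 8 r) 0 ((107898741072324 : ℕ) / 2 ^ 48) := tcu_sub (Pool.Agent.CXD.t78T_nearb (ex_has (by norm_num) (by norm_num)) (ex_has (by norm_num) (by norm_num)) (inB_ok (P := (14, 0)) (b := (547468829786112, 562949953421312)) (by decide +kernel) ⟨h1, Or.inl rfl⟩)) (by norm_num) le_rfl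
  exact qxS_A (by norm_num) (by norm_num) (by omega) (by omega) Pool.Agent.Helper81.TK.E_7_8_T_mid.T (ex_has (by norm_num) (by norm_num)) (ex_has (by norm_num) (by norm_num))
    (inB_ok (P := (14, 0)) (b := (535397221269504, 562949953421312)) (by decide +kernel) ⟨h1, Or.inl rfl⟩) k0 (by norm_num) (by norm_num) (by norm_num)
    (far_one (by norm_num) (by norm_num) (by norm_num) (by norm_num) r (by omega))

/-- the quarter `(7, 8, r)` on the exact line (star shaped regions allowed) -/
theorem qs_7_8 : ∀ r, 10 ≤ r → QXS 7 8 r (xA 7 8 r) := by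
  intro r hr
  rcases Nat.lt_or_ge r 12 with g | g
  · exact s78_10 (by omega) (by omega)
  rcases Nat.lt_or_ge r 14 with g | g
  · exact s78_12 (by omega) (by omega)
  exact s78_14 (by omega)

end Pool.Agent.Helper81.OT
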