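import Pool.Agent.Helper81.OT.H2P6
import Pool.Agent.Helper81.OT.Q7
import Pool.Agent.Helper81.OT.Q8
import Pool.Agent.Helper81.OT.Q97
import Pool.Agent.Helper81.OT.S78
import Pool.Agent.Helper81.OT.S79
import Pool.Agent.Helper84.ST.F

/-!
One tail: all arcs with an order at most `7` (star shaped quarters).
-/

set_option autoImplicit false
noncomputable section
namespace Pool.Agent.Helper81.OT

open Pool.Agent.Helper6.MONO (xA)
open Pool.Agent.Helper84.ST (QXS qxS_of)

/-- the arcs `(a, b, r)` with `a` or `b` at most `7` -/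
theorem h2s_7 : ∀ a b : ℕ, 3 ≤ a → a ≤ 9 → 3 ≤ b → b ≤ 9 → (a ≤ 7 ∨ b ≤ 7) →
    ∀ r, 10 ≤ r → QXS a b r (xA a b r) := by
  intro a b ha ha9 hb hb9 h
  by_cases h3 : a ≤ 6 ∨ b ≤ 6
  · exact h2s_6 a b ha ha9 hb hb9 h3
  · rcases h with h | h
    · obtain rfl : a = 7 := by omega
      have hb4 : 7 ≤ b := by omega
      interval_cases b
      · exact fun r hr => qxS_of (qx_7_7 r hr)
      · exact qs_7_8
      · exact qs_7_9
    · obtain rfl : b = 7 := by omega
      have ha4 : 7 ≤ a := by omega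
      interval_cases a
      · exact fun r hr => qxS_of (qx_7_7 r hr)
      · exact fun r hr => qxS_of (qx_8_7 r hr)
      · exact fun r hr => qxS_of (qx_9_7 r hr)

end Pool.Agent.Helper81.OT
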