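import Pool.Agent.CXD.M_9_T_4
import Pool.Agent.CXD.M_9_T_5
import Pool.Agent.Helper6.CXT.CL4
import Pool.Agent.Helper81.MIT.RowB
import Pool.Agent.Helper81.TK.GM3

/-!
One tail: the arc `(9, 8, r)`, near cells with twins.
-/

set_option autoImplicit false
set_option exponentiation.threshold 4000
noncomputable section
namespace Pool.Agent.Helper81.OT

open Pool.Agent.Helper81.MIT
open Pool.Agent.Helper6.MONO (xA)
open Pool.Agent.Helper57.U2 (TCellU)
open Pool.Agent.Helper84.ST (QXS)
open Pool.Agent.Helper6.CXT (far_one)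

theorem s98_10 {r : ℕ} (h1 : 10 ≤ r) (h2 : r ≤ 11) : QXS 9 8 r (xA 9 8 r) := by
  have k0 : TCellU 9 8 r (xA 9 8 r) 0 ((124083552233188 : ℕ) / 2 ^ 48) := tcu_sub (Pool.Agent.CXD.t98T_nearc (ex_has (by norm_num) (by norm_num)) (ex_has (by norm_num) (by norm_num)) (inB_ok (P := (10, 11)) (b := (535397221269504, 540994905309184)) (by decide +kernel) ⟨h1, Or.inr h2⟩)) (by norm_num) le_rfl
  exact qxS_A (by norm_num) (by norm_num) (by omega) (by omega) Pool.Agent.Helper81.TK.E_9_8_T_mid.T (ex_has (by norm_num) (by norm_num)) (ex_has (by norm_num) (by norm_num))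
    (inB_ok (P := (10, 11)) (b := (535397221269504, 562949953421312)) (by decide +kernel) ⟨h1, Or.inr h2⟩) k0 (by norm_num) (by norm_num) (by norm_num)
    (far_one (by norm_num) (by norm_num) (by norm_num) (by norm_num) r (by omega))

theorem s98_12 {r : ℕ} (h1 : 12 ≤ r) (h2 : r ≤ 13) : QXS 9 8 r (xA 9 8 r) := by
  have k0 : TCellU 9 8 r (xA 9 8 r) 0 ((124083552233188 : ℕ) / 2 ^ 48) := tcu_sub (TCellU.of_t (Pool.Agent.CXD.t98T_neard (ex_has (by norm_num) (by norm_num)) (ex_has (by norm_num) (by norm_num)) (inB_ok (P := (12, 13)) (b := (540994905309184, 547468829786112)) (by decide +kernel) ⟨h1, Or.inr h2⟩))) (by norm_num) le_rfl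
  exact qxS_A (by norm_num) (by norm_num) (by omega) (by omega) Pool.Agent.Helper81.TK.E_9_8_T_mid.T (ex_has (by norm_num) (by norm_num)) (ex_has (by norm_num) (by norm_num))
    (inB_ok (P := (12, 13)) (b := (535397221269504, 562949953421312)) (by decide +kernel) ⟨h1, Or.inr h2⟩) k0 (by norm_num) (by norm_num) (by norm_num)
    (far_one (by norm_num) (by norm_num) (by norm_num) (by norm_num) r (by omega))

theorem s98_14 {r : ℕ} (h1 : 14 ≤ r) (h2 : r ≤ 18) : QXS 9 8 r (xA 9 8 r) := by
  have k0 : TCellU 9 8 r (xA 9 8 r) 0 ((124083552233188 : ℕ) / 2 ^ 48) := tcu_sub (TCellU.of_t (Pool.Agent.CXD.t98T_neare (ex_has (by norm_num) (by norm_num)) (ex_has (by norm_num) (by norm_num)) (inB_ok (P := (14, 18)) (b := (547468829786112, 554505704046592)) (by decide +kernel) ⟨h1, Or.inr h2⟩))) (by norm_num) le_rfl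
  exact qxS_A (by norm_num) (by norm_num) (by omega) (by omega) Pool.Agent.Helper81.TK.E_9_8_T_mid.T (ex_has (by norm_num) (by norm_num)) (ex_has (by norm_num) (by norm_num))
    (inB_ok (P := (14, 18)) (b := (535397221269504, 562949953421312)) (by decide +kernel) ⟨h1, Or.inr h2⟩) k0 (by norm_num) (by norm_num) (by norm_num)
    (far_one (by norm_num) (by norm_num) (by norm_num) (by norm_num) r (by omega))

theorem s98_19 {r : ℕ} (h1 : 19 ≤ r) : QXS 9 8 r (xA 9 8 r) := by
  have k0 : TCellU 9 8 r (xA 9 8 r) 0 ((124083552233188 : ℕ) / 2 ^ 48) := tcu_sub (TCellU.of_t (Pool.Agent.CXD.t98T_nearf (ex_has (by norm_num) (by norm_num)) (ex_has (by norm_num) (by norm_num)) (inB_ok (P := (19, 0)) (b := (554505704046592, 562949953421312)) (by decide +kernel) ⟨h1, Or.inl rfl⟩))) (by norm_num) le_rfl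
  exact qxS_A (by norm_num) (by norm_num) (by omega) (by omega) Pool.Agent.Helper81.TK.E_9_8_T_mid.T (ex_has (by norm_num) (by norm_num)) (ex_has (by norm_num) (by norm_num))
    (inB_ok (P := (19, 0)) (b := (535397221269504, 562949953421312)) (by decide +kernel) ⟨h1, Or.inl rfl⟩) k0 (by norm_num) (by norm_num) (by norm_num)
    (far_one (by norm_num) (by norm_num) (by norm_num) (by norm_num) r (by omega))

/-- the quarter `(9, 8, r)` on the exact line (star shaped regions allowed) -/
theorem qs_9_8 : ∀ r, 10 ≤ r → QXS 9 8 r (xA 9 8 r) := by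
  intro r hr
  rcases Nat.lt_or_ge r 12 with g | g
  · exact s98_10 (by omega) (by omega)
  rcases Nat.lt_or_ge r 14 with g | g
  · exact s98_12 (by omega) (by omega)
  rcases Nat.lt_or_ge r 19 with g | g
  · exact s98_14 (by omega) (by omega)
  exact s98_19 (by omega)

end Pool.Agent.Helper81.OT
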