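import Pool.Agent.Helper81.OT.H2P7
import Pool.Agent.Helper81.OT.Q88
import Pool.Agent.Helper81.OT.S89
import Pool.Agent.Helper81.OT.S98
import Pool.Agent.Helper84.ST.F

/-!
One tail: all arcs with an order at most `8` (star shaped quarters).
-/

set_option autoImplicit false
noncomputable section
namespace Pool.Agent.Helper81.OT

open Pool.Agent.Helper6.MONO (xA)
open Pool.Agent.Helper84.ST (QXS qxS_of)

/-- the arcs `(a, b, r)` with `a` or `b` at most `8` -/
theorem h2s_8 : ∀ a b : ℕ, 3 ≤ a → a ≤ 9 → 3 ≤ b → b ≤ 9 → (a ≤ 8 ∨ b ≤ 8) →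
    ∀ r, 10 ≤ r → QXS a b r (xA a b r) := by
  intro a b ha ha9 hb hb9 h
  by_cases h3 : a ≤ 7 ∨ b ≤ 7
  · exact h2s_7 a b ha ha9 hb hb9 h3
  · rcases h with h | h
    · obtain rfl : a = 8 := by omega
      have hb4 : 8 ≤ b := by omega
      interval_cases b
      · exact fun r hr => qxS_of (qx_8_8 r hr)
      · exact qs_8_9
    · obtain rfl : b = 8 := by omega
      have ha4 : 8 ≤ a := by omega
      interval_cases a
      · exact fun r hr => qxS_of (qx_8_8 r hr)
      · exact qs_9_8

end Pool.Agent.Helper81.OT
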